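import Pool.Agent.MP_3ee8cb_gt.DZZ.BgB

/-! Busemann functions: alignment, the two function bound and midpoints. -/

namespace Pool.Agent.MP_3ee8cb_gt.DLT

open DN (Dim dm)

variable [Dim]

open Set Filter Topology Real DN DZ
open DNWI (lg_symm lg_ray hinge')
open scoped RealInnerProductSpace

variable {m : MF} {lg : V × V → V} {b b' : V → ℝ} {ν ν' : V → V}

theorem inn (B : IsB m lg b ν) (y : V) {v : V} (hv : ‖v‖ = 1) : |⟪ν y, v⟫| ≤ 1 :=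
  (abs_real_inner_le_norm _ _).trans_eq (by rw [B.unit, hv, one_mul])

theorem lb (B : IsB m lg b ν) {z : V × V} (hz : ‖z.2‖ = 1) (L : ℝ) :
    cosh L - ⟪ν z.1, z.2⟫ * sinh L ≤ exp (b (m.Z L z).1 - b z.1) := by
  rw [exp_sub, le_div_iff₀' (exp_pos _)]
  exact B.lb z.1 z.2 L hz

/-- No increase forwards forces alignment. -/
theorem fwd (B : IsB m lg b ν) {z : V × V} (hz : ‖z.2‖ = 1) {L : ℝ} (hL : 0 ≤ L)
    (h : b (m.Z L z).1 ≤ b z.1) : (1 - ⟪ν z.1, z.2⟫) * L ≤ 1 := by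
  have h1 := (lb B hz L).trans (exp_le_one_iff.2 (sub_nonpos.2 h))
  have h2 := mul_le_mul_of_nonneg_left (self_le_sinh_iff.2 hL)
    (sub_nonneg.2 (abs_le.1 (inn B z.1 hz)).2)
  linarith [sinh_lt_cosh L]

theorem bwd (B : IsB m lg b ν) {z : V × V} (hz : ‖z.2‖ = 1) {L : ℝ} (hL : 0 ≤ L)
    (h : b (m.Z (-L) z).1 ≤ b z.1) : (1 + ⟪ν z.1, z.2⟫) * L ≤ 1 := by
  have h1 := (lb B hz (-L)).trans (exp_le_one_iff.2 (sub_nonpos.2 h))
  have h2 := mul_le_mul_of_nonneg_left (self_le_sinh_iff.2 hL)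
    (show 0 ≤ 1 + ⟪ν z.1, z.2⟫ by linarith [(abs_le.1 (inn B z.1 hz)).1])
  rw [cosh_neg, sinh_neg] at h1
  linarith [sinh_lt_cosh L]

/-- Growth in a direction almost opposite to the field. -/
theorem grow (B : IsB m lg b ν) {z : V × V} (hz : ‖z.2‖ = 1) (L : ℝ) (hL : 0 ≤ L) {t : ℝ}
    (ht : t ≤ 1 / 2) (h : 1 + ⟪ν z.1, z.2⟫ ≤ t) : b z.1 + L - 2 * t ≤ b (m.Z L z).1 := by
  have h1 := lb B hz L
  have h0 : 0 ≤ t := by linarith [(abs_le.1 (inn B z.1 hz)).1]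
  have h2 := cosh_add_sinh L
  have h3 := mul_le_mul_of_nonneg_right h (sinh_nonneg_iff.2 hL)
  have h4 := mul_nonneg h0 (cosh_pos L).le
  have h5 : (1 - t) * exp L ≤ exp (b (m.Z L z).1 - b z.1) := by rw [← h2]; linarith
  have h6 : 1 ≤ (1 - t) * exp (2 * t) := by
    nlinarith [mul_le_mul_of_nonneg_left (add_one_le_exp (2 * t)) (by linarith : 0 ≤ 1 - t),
      mul_nonneg h0 (by linarith : 0 ≤ 1 - 2 * t)]
  have h7 : exp L ≤ exp (b (m.Z L z).1 - b z.1 + 2 * t) := by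
    rw [exp_add]
    nlinarith [mul_le_mul_of_nonneg_right h5 (exp_pos (2 * t)).le,
      mul_le_mul_of_nonneg_right h6 (exp_pos L).le]
  linarith [exp_le_exp.1 h7]

omit [Dim] in
theorem alg {s s' N L : ℝ} (h : |s| ≤ 1) (h' : |s'| ≤ 1)
    (e : N ^ 2 = (1 - s ^ 2) * (1 - s' ^ 2)) :
    1 - s * s' + N ≤ 2 * ((cosh L - s * sinh L) * (cosh L - s' * sinh L)) := by
  rw [abs_le] at h h'
  have e1 : exp L * exp (-L) = 1 := by rw [← exp_add, add_neg_cancel, exp_zero]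
  rw [cosh_eq, sinh_eq]
  generalize exp L = E at *
  generalize exp (-L) = F at *
  have a0 : 0 ≤ (1 - s) * (1 - s') * E ^ 2 :=
    mul_nonneg (mul_nonneg (by linarith [h.2]) (by linarith [h'.2])) (sq_nonneg _)
  have b0 : 0 ≤ (1 + s) * (1 + s') * F ^ 2 :=
    mul_nonneg (mul_nonneg (by linarith [h.1]) (by linarith [h'.1])) (sq_nonneg _)
  have p : (1 - s) * (1 - s') * E ^ 2 * ((1 + s) * (1 + s') * F ^ 2) = N ^ 2 := by
    rw [e]
    linear_combination ((1 - s ^ 2) * (1 - s' ^ 2) * (E * F + 1)) * e1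
  have k : 2 * N ≤ (1 - s) * (1 - s') * E ^ 2 + (1 + s) * (1 + s') * F ^ 2 :=
    le_of_sq_le_sq (by nlinarith [sq_nonneg ((1 - s) * (1 - s') * E ^ 2 -
      (1 + s) * (1 + s') * F ^ 2)]) (add_nonneg a0 b0)
  have q : 4 * (((E + F) / 2 - s * ((E - F) / 2)) * ((E + F) / 2 - s' * ((E - F) / 2))) =
      (1 - s) * (1 - s') * E ^ 2 + (1 + s) * (1 + s') * F ^ 2 + (2 - 2 * (s * s')) := by
    linear_combination (2 - 2 * (s * s')) * e1
  linarith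

/-- The sum of two Busemann functions is almost minimal where the fields are almost opposite. -/
theorem gap (Y : YW m lg) (B : IsB m lg b ν) (B' : IsB m lg b' ν') (y z : V)
    (h : ⟪ν y, ν' y⟫ ≤ 1 / 2) : b y + b' y ≤ b z + b' z + 2 * (1 + ⟪ν y, ν' y⟫) := by
  obtain ⟨v, hv, e⟩ := BgB.seg Y y z
  generalize ‖lg (y, z)‖ = L at e
  have h1 := lb B (z := (y, v)) hv L
  have h2 := lb B' (z := (y, v)) hv L
  have vv : ⟪v, v⟫ = (1 : ℝ) := by rw [real_inner_self_eq_norm_sq, hv, one_pow]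
  have n : ∀ a : V, ‖a‖ = 1 → ‖a - ⟪a, v⟫ • v‖ ^ 2 = 1 - ⟪a, v⟫ ^ 2 := fun a ha => by
    rw [norm_sub_sq_real, ha, inner_smul_right, norm_smul, hv, Real.norm_eq_abs, mul_one, sq_abs]
    ring
  have c := neg_le_of_abs_le (abs_real_inner_le_norm (ν y - ⟪ν y, v⟫ • v) (ν' y - ⟪ν' y, v⟫ • v))
  have a := alg (L := L) (N := ‖ν y - ⟪ν y, v⟫ • v‖ * ‖ν' y - ⟪ν' y, v⟫ • v‖) (inn B y hv)
    (inn B' y hv) (by rw [mul_pow, n _ (B.unit y), n _ (B'.unit y)])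
  simp only [inner_sub_left, inner_sub_right, real_inner_smul_left, real_inner_smul_right, vv,
    real_inner_comm (ν' y) v] at c
  have p : 0 ≤ cosh L - ⟪ν' y, v⟫ * sinh L := by
    have q1 := mul_le_mul_of_nonneg_right (inn B' y hv) (abs_nonneg (sinh L))
    have q2 : |sinh L| ≤ cosh L := abs_le.2 ⟨by linarith [cosh_add_sinh L, exp_pos L],
      (sinh_lt_cosh L).le⟩
    rw [← abs_mul] at q1
    linarith [le_abs_self (⟪ν' y, v⟫ * sinh L)]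
  have k := mul_le_mul h1 h2 p (exp_pos _).le
  have s0 := (abs_le.1 (inn B y (B'.unit y))).1
  rw [e, ← exp_add] at k
  have k1 : 1 - ⟪ν y, ν' y⟫ ≤ 2 * exp (b z - b y + (b' z - b' y)) := by linarith
  generalize ⟪ν y, ν' y⟫ = s at *
  have k2 : 1 ≤ exp (b z - b y + (b' z - b' y) + 2 * (1 + s)) := by
    rw [exp_add]
    nlinarith [mul_le_mul_of_nonneg_right k1 (exp_pos (2 * (1 + s))).le,
      mul_le_mul_of_nonneg_left (add_one_le_exp (2 * (1 + s))) (by linarith : 0 ≤ 1 - s),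
      mul_nonneg (by linarith : 0 ≤ 1 + s) (by linarith : 0 ≤ 1 - 2 * s)]
  linarith [one_le_exp_iff.1 k2]

/-- A point almost between two points is close to their midpoint. -/
theorem midp (Y : YW m lg) {a c x : V} {T τ : ℝ} (hT : 0 ≤ T) (h0 : 0 ≤ τ) (h1 : τ ≤ 1)
    (ha : ‖lg (x, a)‖ ≤ (1 + τ ^ 2) * T) (hc : ‖lg (x, c)‖ ≤ (1 + τ ^ 2) * T)
    (h : 2 * T ≤ (1 + τ ^ 2) * ‖lg (a, c)‖) : ∃ (z : V × V) (L : ℝ), ‖z.2‖ = 1 ∧
      (m.Z (-L) z).1 = a ∧ (m.Z L z).1 = c ∧ (1 - τ ^ 2) * T ≤ L ∧ L ≤ (1 + τ ^ 2) * T ∧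
      ‖lg (z.1, x)‖ ≤ 2 * τ * T := by
  obtain ⟨v, hv, e⟩ := BgB.seg Y a c
  have t := Y.had.tri a x c
  rw [lg_symm Y.jac Y.had x a] at t
  have l0 := norm_nonneg (lg (a, c))
  generalize ‖lg (a, c)‖ = l at *
  have n : ‖(m.Z (l / 2) (a, v)).2‖ = 1 := (Y.jac.norm _ _).trans hv
  have e1 : (m.Z (-(l / 2)) (m.Z (l / 2) (a, v))).1 = a := by
    rw [← Y.ok.add, neg_add_cancel, Y.ok.zero]
  have e2 : (m.Z (l / 2) (m.Z (l / 2) (a, v))).1 = c := by rw [← Y.ok.add, add_halves, e]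
  have t1 : τ ^ 2 ≤ 1 := by nlinarith
  have l1 : (1 - τ ^ 2) * T ≤ l / 2 := by
    refine le_of_mul_le_mul_left ?_ (by positivity : 0 < 1 + τ ^ 2)
    nlinarith [mul_nonneg (sq_nonneg (τ ^ 2)) hT]
  refine ⟨_, l / 2, n, e1, e2, l1, by linarith, ?_⟩
  have k := DNWI.mid Y.jac Y.had (m.Z (l / 2) (a, v)) x (l / 2)
  rw [e1, e2, n] at k
  refine le_of_sq_le_sq ?_ (by positivity)
  nlinarith [pow_le_pow_left₀ (norm_nonneg _) ha 2, pow_le_pow_left₀ (norm_nonneg _) hc 2,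
    pow_le_pow_left₀ (mul_nonneg (sub_nonneg.2 t1) hT) l1 2]

end Pool.Agent.MP_3ee8cb_gt.DLT
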