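import Pool.Agent.MP_3ee8cb_gt.DLT.Kit

/-! Almost isometric metrics have small fronts. -/

namespace Pool.Agent.MP_3ee8cb_gt.DLT

open DN (Dim dm)

variable [Dim]

open Set Filter Topology Real DN DZ
open DNWI (lg_symm lg_ray hinge')
open scoped RealInnerProductSpace

/-- The two distances on the same space are comparable, and `G` is the flow on the family. -/
structure QI (lg : V × V → V) (dX : V → V → ℝ) {P : Type} [TopologicalSpace P] (A : Fam P)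
    (G : ℝ → P → P) (l : ℝ) : Prop where
  up : ∀ x y, dX x y ≤ l * ‖lg (x, y)‖
  sp : ∀ p s t, ‖lg (A.pr (G s p), A.pr (G t p))‖ ≤ l * |s - t|
  be : ∀ t p z, A.β (G t p) z = A.β p z + t
  zero : ∀ p, A.pr (G 0 p) = A.pr p
  fl : ∀ t p, A.pr (G t (A.fl p)) = A.pr (G (-t) p)
  cont : ∀ t, Continuous fun p => A.pr (G t p)
  con : ∀ x, IsPreconnected {p | A.pr p = x}
  bdd : ∃ S, ∀ p, A.β p (A.pr p) ≤ S

variable {m : MF} {lg : V × V → V} {dX : V → V → ℝ} {P : Type} [TopologicalSpace P] {A : Fam P}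
  {G : ℝ → P → P} {τ S : ℝ}

theorem fib (B : BF m lg dX A) {p q : P} (h : A.pr p = A.pr q) {c C : ℝ}
    (H : ∀ z, c ≤ A.β p z + A.β q z + C) : c ≤ C :=
  le_of_forall_pos_le_add fun e he => by
    obtain ⟨T, hT⟩ := (B.gr p q h e he).exists
    have k := H (m.Z T (A.ft q, A.ν q (A.ft q))).1
    rw [(B.isb q).ray, B.foot] at k
    linarith

theorem low (B : BF m lg dX A) (hS : ∀ p, A.β p (A.pr p) ≤ S) (p : P) : -S ≤ A.β p (A.pr p) := by
  have h := hS (A.fl p)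
  rw [(B.flp p).1] at h
  linarith [BgB.opp B p (A.pr p)]

theorem far (B : BF m lg dX A) {l : ℝ} (Q : QI lg dX A G l) (p : P) (s t : ℝ) :
    t - s ≤ l * ‖lg (A.pr (G s p), A.pr (G t p))‖ :=
  ((le_abs_self _).trans (B.lip (G s p) (G t p) (t - s) fun z => by
    rw [Q.be, Q.be]; ring)).trans (Q.up _ _)

theorem three (B : BF m lg dX A) (Q : QI lg dX A G (1 + τ ^ 2)) (h0 : 0 ≤ τ) (h1 : τ ≤ 1) (p : P)
    (s : ℝ) {T : ℝ} (hT : 0 ≤ T) : ∃ (z : V × V) (L : ℝ), ‖z.2‖ = 1 ∧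
      (m.Z (-L) z).1 = A.pr (G (s - T) p) ∧ (m.Z L z).1 = A.pr (G (s + T) p) ∧
      (1 - τ ^ 2) * T ≤ L ∧ L ≤ (1 + τ ^ 2) * T ∧ ‖lg (z.1, A.pr (G s p))‖ ≤ 2 * τ * T := by
  refine midp B.yw hT h0 h1 ?_ ?_ ?_
  · simpa [abs_of_nonneg hT] using Q.sp p s (s - T)
  · simpa [abs_of_nonneg hT] using Q.sp p s (s + T)
  · linarith [far B Q p (s - T) (s + T)]

theorem one (B : BF m lg dX A) (Q : QI lg dX A G (1 + τ ^ 2)) (h0 : 0 ≤ τ) (h1 : τ ≤ 1 / 40)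
    (S0 : 0 ≤ S) (hS : ∀ p, A.β p (A.pr p) ≤ S) (p q : P)
    (h : A.β p (A.pr (G (-(3 * S + 10)) q)) ≤ A.β p (A.pr (G (3 * S + 10) q))) (x : V) :
    A.β p (A.pr q) + A.β q (A.pr q) ≤ A.β p x + A.β q x + (6 + 3 / 10 * S) := by
  have Y := B.yw
  obtain ⟨z, L, n, e1, e2, l1, l2, d⟩ := three B Q h0 (by linarith) q 0
    (by linarith : 0 ≤ 3 * S + 10)
  rw [zero_sub] at e1
  rw [zero_add] at e2
  rw [Q.zero] at d
  have t2 : τ ^ 2 ≤ 1 / 1600 := by nlinarith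
  have l3 : 9 ≤ L := by nlinarith
  have d1 : ‖lg (z.1, A.pr q)‖ ≤ (3 * S + 10) / 20 := by nlinarith
  have n1 : ‖(m.Z 1 z).2‖ = 1 := (Y.jac.norm _ _).trans n
  have d2 : ‖lg (A.pr q, (m.Z 1 z).1)‖ ≤ (3 * S + 10) / 20 + 1 := by
    have t := Y.had.tri (A.pr q) z.1 (m.Z 1 z).1
    rw [lg_ray Y.jac Y.had, one_smul, n, lg_symm Y.jac Y.had z.1] at t
    linarith
  have f1 : (m.Z (L - 1) (m.Z 1 z)).1 = A.pr (G (3 * S + 10) q) := by
    rw [← Y.ok.add, sub_add_cancel, e2]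
  have f2 : (m.Z (-(L + 1)) (m.Z 1 z)).1 = A.pr (G (-(3 * S + 10)) q) := by
    rw [← Y.ok.add, show -(L + 1) + 1 = -L by ring, e1]
  have d3 : ‖lg (A.pr (G (3 * S + 10) q), (m.Z 1 z).1)‖ = L - 1 := by
    rw [lg_symm Y.jac Y.had, ← f1, lg_ray Y.jac Y.had, norm_smul, n1, mul_one,
      Real.norm_of_nonneg (by linarith)]
  generalize m.Z 1 z = y at n1 d2 f1 f2 d3
  have a1 : ⟪A.ν p y.1, y.2⟫ ≤ 0 := by
    by_contra k
    have g1 := lb (B.isb p) n1 (-(L + 1))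
    have g2 := (B.isb p).lip (A.pr (G (3 * S + 10) q)) y.1
    rw [f2, cosh_neg, sinh_neg] at g1
    have g3 := mul_nonneg (not_le.1 k).le (sinh_nonneg_iff.2 (by linarith : 0 ≤ L + 1))
    have g4 : exp (L - 1) < cosh (L + 1) := by
      rw [cosh_eq, show L + 1 = L - 1 + 2 by ring, exp_add]
      nlinarith [add_one_le_exp (2 : ℝ), exp_pos (L - 1), exp_pos (-(L - 1 + 2))]
    have g5 := exp_lt_exp.1 (g4.trans_le (le_trans (by linarith) g1))
    linarith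
  have a2 := fwd (B.isb q) n1 (by linarith : 0 ≤ L - 1) (by
    have k1 := hS (G (3 * S + 10) q)
    have k2 := (B.isb q).lip (A.pr q) y.1
    rw [Q.be] at k1
    rw [f1]
    linarith [low B hS q])
  have a3 : ‖A.ν q y.1 - y.2‖ ≤ 1 / 2 := by
    refine le_of_sq_le_sq ?_ (by norm_num)
    rw [norm_sub_sq_real, (B.isb q).unit, n1]
    nlinarith [(abs_le.1 (inn (B.isb q) y.1 n1)).2]
  have a4 := real_inner_le_norm (A.ν p y.1) (A.ν q y.1 - y.2)
  rw [(B.isb p).unit, inner_sub_right] at a4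
  have a5 : ⟪A.ν p y.1, A.ν q y.1⟫ ≤ 1 / 2 := by linarith
  linarith [gap Y (B.isb p) (B.isb q) y.1 x a5, (B.isb p).lip (A.pr q) y.1,
    (B.isb q).lip (A.pr q) y.1]

theorem pass (B : BF m lg dX A) (Q : QI lg dX A G (1 + τ ^ 2)) (h0 : 0 ≤ τ) (h1 : τ ≤ 1 / 40)
    (S0 : 0 ≤ S) (hS : ∀ p, A.β p (A.pr p) ≤ S) (p : P) : ∃ q, A.pr q = A.pr p ∧
      ∀ r, r = q ∨ r = A.fl q → ∀ x,
        A.β p (A.pr p) + A.β r (A.pr p) ≤ A.β p x + A.β r x + (6 + 3 / 10 * S) := by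
  have c : ∀ t, Continuous fun q => A.β p (A.pr (G t q)) := fun t =>
    B.cont.comp (continuous_const.prodMk (Q.cont t))
  obtain ⟨q, e, h⟩ : ∃ q ∈ {q | A.pr q = A.pr p},
      A.β p (A.pr (G (-(3 * S + 10)) q)) = A.β p (A.pr (G (3 * S + 10) q)) := by
    rcases le_total (A.β p (A.pr (G (-(3 * S + 10)) p))) (A.β p (A.pr (G (3 * S + 10) p)))
      with k | k
    · exact (Q.con _).intermediate_value₂ (a := p) (b := A.fl p) rfl (B.flp p).1
        (c _).continuousOn (c _).continuousOn k (by rwa [Q.fl, Q.fl, neg_neg])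
    · exact (Q.con _).intermediate_value₂ (a := A.fl p) (b := p) (B.flp p).1 rfl
        (c _).continuousOn (c _).continuousOn (by rwa [Q.fl, Q.fl, neg_neg]) k
  refine ⟨q, e, ?_⟩
  rintro r (rfl | rfl) x
  · exact e ▸ one B Q h0 h1 S0 hS p r h.le x
  · exact (B.flp q).1.trans e ▸ one B Q h0 h1 S0 hS p _ (by rw [Q.fl, Q.fl, neg_neg, h]) x

theorem nine (B : BF m lg dX A) (Q : QI lg dX A G (1 + τ ^ 2)) (h0 : 0 ≤ τ) (h1 : τ ≤ 1 / 40)
    (p : P) : A.β p (A.pr p) ≤ 9 := by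
  have bd : BddAbove (range fun p => A.β p (A.pr p)) := Q.bdd.imp fun _ h => forall_mem_range.2 h
  have hS := le_ciSup bd
  have := Nonempty.intro p
  have S0 : 0 ≤ ⨆ p, A.β p (A.pr p) := by linarith [low B hS p, hS p]
  have k := ciSup_le (f := fun p => A.β p (A.pr p)) (c := 6 + 3 / 10 * ⨆ p, A.β p (A.pr p))
    fun p => by
      obtain ⟨q, e, h⟩ := pass B Q h0 h1 S0 hS p
      linarith [fib B e.symm (h _ (.inl rfl)), fib B ((B.flp q).1.trans e).symm (h _ (.inr rfl)),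
        BgB.opp B q (A.pr p)]
  linarith [hS p]

theorem tr (B : BF m lg dX A) (Q : QI lg dX A G (1 + τ ^ 2)) (h0 : 0 ≤ τ) (h1 : τ ≤ 1 / 40)
    {p p' : P} {k T D ω : ℝ} (e : ∀ z, A.β p' z = A.β p z + k) (hD : ‖lg (A.pr p', A.pr p)‖ ≤ D)
    (hT : 20 ≤ T) (w0 : 0 ≤ ω) (w1 : ω ≤ 1) (w2 : 16 ≤ ω ^ 2 * T) (w3 : 8 * D ≤ ω * T) :
    A.β p (A.pr p) ≤ A.β p' (A.pr p') + ω ^ 2 + 5 * τ * T := by
  have Y := B.yw
  have hS := nine B Q h0 h1
  obtain ⟨z, L, n, e1, e2, l1, l2, d⟩ := three B Q h0 (by linarith) p T (by linarith : 0 ≤ T)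
  rw [sub_self, Q.zero] at e1
  have t2 : τ ^ 2 ≤ 1 / 1600 := by nlinarith
  have t3 := mul_le_mul_of_nonneg_right t2 (by linarith : 0 ≤ T)
  have L0 : 0 ≤ L := by linarith
  have e3 : lg (z.1, A.pr p) = (-L) • z.2 := by rw [← e1, lg_ray Y.jac Y.had]
  have b1 := (B.isb p).lip (A.pr p) z.1
  rw [lg_symm Y.jac Y.had, e3, norm_smul, n, mul_one, norm_neg, Real.norm_of_nonneg L0] at b1
  have a1 := fwd (B.isb p) n L0 (by
    have k1 := hS (G (T + T) p)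
    rw [Q.be] at k1
    rw [e2]
    linarith [low B hS p])
  have a2 : ‖A.ν p z.1 - z.2‖ ≤ ω / 2 := by
    refine le_of_sq_le_sq ?_ (by linarith)
    rw [norm_sub_sq_real, (B.isb p).unit, n]
    refine le_of_mul_le_mul_right ?_ (by linarith : 0 < L)
    nlinarith [mul_le_mul_of_nonneg_left (by linarith : T ≤ 2 * L) (sq_nonneg ω)]
  obtain ⟨u, hu, e4⟩ := BgB.seg Y z.1 (A.pr p')
  have e5 := lg_ray Y.jac Y.had ‖lg (z.1, A.pr p')‖ (z.1, u)
  have h2 := (hinge' Y.had z.1 (A.pr p') (A.pr p)).trans hD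
  have h3 := Y.had.tri (A.pr p') z.1 (A.pr (G T p))
  have M0 := norm_nonneg (lg (z.1, A.pr p'))
  rw [lg_symm Y.jac Y.had z.1] at h3
  rw [e4] at e5
  rw [e3, e5] at h2
  have g := grow (B.isb p) (z := (z.1, u)) hu _ M0 (t := ω ^ 2 / 2) (by nlinarith)
  rw [e4] at g
  generalize ‖lg (z.1, A.pr p')‖ = M at h2 h3 M0 g
  have h4 := (abs_norm_sub_norm_le _ _).trans h2
  rw [norm_smul, norm_smul, hu, n, mul_one, mul_one, norm_neg, Real.norm_of_nonneg L0,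
    Real.norm_of_nonneg M0] at h4
  have a3 : ‖z.2 + u‖ ≤ ω / 2 := by
    have k := norm_sub_le (M • u - (-L) • z.2) ((M - L) • u)
    rw [show M • u - (-L) • z.2 - (M - L) • u = L • (z.2 + u) by module, norm_smul, norm_smul, hu,
      mul_one, Real.norm_of_nonneg L0, Real.norm_eq_abs] at k
    refine le_of_mul_le_mul_left ?_ (by linarith : 0 < L)
    nlinarith [mul_le_mul_of_nonneg_left (by linarith : T ≤ 2 * L) w0]
  have a4 := norm_add_le (A.ν p z.1 - z.2) (z.2 + u)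
  rw [← add_assoc, sub_add_cancel] at a4
  have a5 := pow_le_pow_left₀ (norm_nonneg _) (a4.trans (add_le_add a2 a3)) 2
  rw [norm_add_sq_real, (B.isb p).unit, hu] at a5
  have g1 := g (by linarith)
  have k1 := ((le_abs_self _).trans (B.lip p' (G T p) (T - k) fun z => by
    rw [Q.be, e]; ring)).trans (Q.up _ _)
  have k2 := mul_le_mul_of_nonneg_left (h3.trans (add_le_add_right d M))
    (by positivity : 0 ≤ 1 + τ ^ 2)
  have k3 : M ≤ 2 * T := by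
    nlinarith [(abs_le.1 h4).2, mul_le_mul_of_nonneg_right w1 (by linarith : 0 ≤ T)]
  have k4 := mul_le_mul_of_nonneg_left k3 (sq_nonneg τ)
  have k5 := mul_nonneg h0 (by linarith : 0 ≤ T)
  have k6 := mul_le_mul_of_nonneg_right h1 k5
  have k7 := mul_le_mul_of_nonneg_right t2 k5
  rw [e]
  nlinarith

/-- The stability theorem. -/
theorem stab {r : ℝ} (hr : 0 < r) : ∃ l : ℝ, 1 < l ∧ ∀ (m : MF) (lg : V × V → V)
    (dX : V → V → ℝ) (P : Type) [TopologicalSpace P] (A : Fam P) (G : ℝ → P → P),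
      BF m lg dX A → QI lg dX A G l → ∀ p, |A.β p (A.pr p)| ≤ r := by
  obtain ⟨ω, w0, w1, w2⟩ : ∃ ω : ℝ, 0 < ω ∧ ω ≤ 1 ∧ ω ≤ r / 6 :=
    ⟨min 1 (r / 6), by positivity, min_le_left _ _, min_le_right _ _⟩
  obtain ⟨D, d1, d2⟩ : ∃ D : ℝ, 9 ≤ D ∧ 6 / r ≤ D := ⟨_, le_max_left _ _, le_max_right _ _⟩
  obtain ⟨T, t1, t2, t3⟩ : ∃ T : ℝ, 20 ≤ T ∧ 16 / ω ^ 2 ≤ T ∧ 8 * D / ω ≤ T :=
    ⟨max 20 (max _ _), le_max_left _ _, le_max_of_le_right (le_max_left _ _),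
      le_max_of_le_right (le_max_right _ _)⟩
  have T0 : 0 < T := by linarith
  obtain ⟨τ, h0, h1, h2⟩ : ∃ τ : ℝ, 0 < τ ∧ τ ≤ 1 / 40 ∧ τ ≤ r / 30 / T :=
    ⟨min _ _, by positivity, min_le_left _ _, min_le_right _ _⟩
  rw [div_le_iff₀' (by positivity)] at d2 t2 t3
  rw [le_div_iff₀ T0] at h2
  refine ⟨1 + τ ^ 2, lt_add_of_pos_right _ (by positivity), fun m lg dX P _ A G B Q => ?_⟩
  have Y := B.yw
  have key : ∀ p, A.β p (A.pr p) ≤ r := fun p => by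
    obtain ⟨q, e, h⟩ := pass B Q h0.le h1 (by norm_num) (nine B Q h0.le h1) p
    have n := (B.isb p).unit (A.pr p)
    have r1 := (B.isb p).ray (A.pr p) D
    have r2 := (B.b1 p).par (A.pr p) D
    have r3 : (m.Z (-D) (m.Z D (A.pr p, A.ν p (A.pr p)))).1 = A.pr p := by
      rw [← Y.ok.add, neg_add_cancel, Y.ok.zero]
    have r4 : ‖lg ((m.Z D (A.pr p, A.ν p (A.pr p))).1, A.pr p)‖ ≤ D := by
      have := lg_ray Y.jac Y.had D (A.pr p, A.ν p (A.pr p))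
      rw [lg_symm Y.jac Y.had, this, norm_smul, n, mul_one, Real.norm_of_nonneg (by linarith)]
    generalize m.Z D (A.pr p, A.ν p (A.pr p)) = y at r1 r2 r3 r4
    obtain ⟨p', k, e1, e2⟩ := B.mov p y.1
    have T1 := tr B Q h0.le h1 e2 (e1 ▸ r4) t1 w0.le w1 t2 t3
    have two : ∀ s, A.pr s = A.pr p → s = q ∨ s = A.fl q →
        A.β p (A.pr p) + A.β s (A.pr p) ≤ 2 / D + 2 * (ω ^ 2 + 5 * τ * T) := fun s es hs => by
      obtain ⟨s', k', e3, e4⟩ := B.mov s y.1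
      have T2 := tr B Q h0.le h1 e4 (by rw [e3, es]; exact r4) t1 w0.le w1 t2 t3
      have a1 := bwd (B.isb s) (r2 ▸ (B.isb p).unit y.1) (by linarith : 0 ≤ D)
        (by rw [r3]; linarith [h s hs y.1])
      rw [← r2, real_inner_comm, ← le_div_iff₀ (by linarith)] at a1
      have a2 : 1 / D ≤ 1 := (div_le_one (by linarith)).2 (by linarith)
      have a3 := fib B (e1.trans e3.symm) (c := A.β p' y.1 + A.β s' y.1) (C := 2 / D) fun z => by
        have := gap Y (B.isb p) (B.isb s) y.1 z (by linarith)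
        rw [e2, e2, e4, e4, show 2 / D = 2 * (1 / D) by ring]
        linarith
      rw [e1] at T1
      rw [e3, es] at T2
      linarith
    have a4 : 2 / D ≤ r / 3 := by rw [div_le_iff₀ (by linarith)]; linarith
    nlinarith [two q e (.inl rfl), two _ ((B.flp q).1.trans e) (.inr rfl), BgB.opp B q (A.pr p),
      mul_le_mul_of_nonneg_left w1 w0.le]
  exact fun p => abs_le.2 ⟨low B key p, key p⟩

end Pool.Agent.MP_3ee8cb_gt.DLT
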